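import Pool.Agent.Y303.EJ.W
import Pool.Agent.Y427.SK.Ser

/-!
EJW-1: the strong solution belongs to `H¹` (helper810, for helper303).
-/

open Set Filter Topology MeasureTheory Metric

set_option autoImplicit false

namespace Pool.Agent.Y810.EJ

open Pool.Agent.Y5 (E3)
open Pool.Agent.Y303.SK
open Pool.Agent.Y303.EJ
open Pool.Agent.Y427.SK

theorem cs_fzero {Ω : Set E3} {f : E3 → E3} (h : CS Ω f) {x : E3} (hx : x ∉ Ω) :
    fderiv ℝ f x = 0 :=
  image_eq_zero_of_notMem_tsupport fun h' => hx (h.supp (tsupport_fderiv_subset ℝ h'))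

theorem small_sq (V ε : ℝ) (hV0 : 0 ≤ V) (hε : 0 < ε) : ∃ δ : ℝ, 0 < δ ∧ δ ^ 2 * V < ε := by
  refine ⟨min 1 (ε / (2 * (V + 1))), by positivity, ?_⟩
  have h1 : min 1 (ε / (2 * (V + 1))) ≤ 1 := min_le_left _ _
  have h2 : min 1 (ε / (2 * (V + 1))) ≤ ε / (2 * (V + 1)) := min_le_right _ _
  have h3 : 0 < min 1 (ε / (2 * (V + 1))) := by positivity
  calc min 1 (ε / (2 * (V + 1))) ^ 2 * V ≤ 1 * (ε / (2 * (V + 1))) * V := by
        rw [pow_two]; gcongr
    _ < ε := by
        rw [one_mul, div_mul_eq_mul_div, div_lt_iff₀ (by positivity)]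
        nlinarith

/-- an integral of a function which is small and vanishes outside `Ω` -/
theorem int_small {Ω : Set E3} (hb : Bornology.IsBounded Ω) (f : E3 → ℝ) (c : ℝ)
    (h0 : ∀ x, 0 ≤ f x) (hc : ∀ x, f x ≤ c) (hz : ∀ x ∉ Ω, f x = 0) :
    ∫ x, f x ≤ c * (volume Ω).toReal := by
  have hvol : volume Ω < ⊤ := hb.measure_lt_top
  have h3 : ∫ x, f x = ∫ x in Ω, f x := by
    rw [setIntegral_eq_integral_of_forall_compl_eq_zero]
    exact hz
  rw [h3]
  calc ∫ x in Ω, f x ≤ ∫ _ in Ω, c := by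
        refine integral_mono_of_nonneg (Eventually.of_forall h0)
          (integrableOn_const (hs := hvol.ne)) (Eventually.of_forall hc)
    _ = c * (volume Ω).toReal := by
        rw [setIntegral_const, smul_eq_mul, mul_comm]
        rfl

theorem ser_H1 {Ω : Set E3} {I : Type} {e : I → E3 → E3} {z : I → ℝ}
    (hb : Bornology.IsBounded Ω) (h : ∀ a, CS Ω (e a))
    (hs : ∀ k : ℕ, Summable (fun a => |z a| * nk k (e a))) :
    H1w Ω (ser e z) (gr (ser e z)) := by
  have hsm := ser_smooth h hs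
  have hcs : HasCompactSupport (ser e z) := ser_cpt hb h
  have hfc : Continuous (fderiv ℝ (ser e z)) := hsm.continuous_fderiv (by simp)
  have hfz : ∀ x ∉ Ω, fderiv ℝ (ser e z) x = 0 := by
    intro x hx
    rw [ser_fderiv h hs]
    have : ∀ a, z a • fderiv ℝ (e a) x = 0 := fun a => by
      have h1 := cs_fzero (h a) hx
      rw [h1]
      ext y
      simp
    simp only [this, tsum_zero]
  refine ⟨hsm.continuous.memLp_of_hasCompactSupport hcs, ?_, ?_⟩
  · intro i
    have hc : Continuous fun x => gr (ser e z) x i := hfc.clm_apply continuous_const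
    refine hc.memLp_of_hasCompactSupport ?_
    refine HasCompactSupport.intro (K := closure Ω) hb.isCompact_closure fun x hx => ?_
    show fderiv ℝ (ser e z) x (cv i) = 0
    rw [hfz x fun h' => hx (subset_closure h')]
    simp
  · intro ε hε
    set V : ℝ := (volume Ω).toReal with hV
    have hV0 : 0 ≤ V := ENNReal.toReal_nonneg
    obtain ⟨δ, hδ, hδ2⟩ := small_sq V (ε / 3) hV0 (by positivity)
    obtain ⟨F, hF0, hF1⟩ : ∃ F : Finset I, ∑' a : {a // a ∉ F}, |z a| * nk 0 (e a) < δ ∧
        ∑' a : {a // a ∉ F}, |z a| * nk 1 (e a) < δ := by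
      have h0 := tendsto_tsum_compl_atTop_zero (fun a => |z a| * nk 0 (e a))
      have h1 := tendsto_tsum_compl_atTop_zero (fun a => |z a| * nk 1 (e a))
      exact ((h0.eventually (gt_mem_nhds hδ)).and (h1.eventually (gt_mem_nhds hδ))).exists
    have hw : CS Ω (fun x => ∑ a ∈ F, z a • e a x) := cs_sum h z F
    have hpt : ∀ x, ‖ser e z x - ∑ a ∈ F, z a • e a x‖ ≤ δ := by
      intro x
      have h1 : ser e z x - ∑ a ∈ F, z a • e a x = ∑' a : {a // a ∉ F}, z a • e a x := by
        rw [sub_eq_iff_eq_add']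
        exact ((sum0 h hs x).sum_add_tsum_compl (s := F)).symm
      rw [h1]
      have h2 : Summable fun a : {a // a ∉ F} => |z a| * nk 0 (e a) := (hs 0).subtype _
      refine (tsum_of_norm_bounded h2.hasSum fun a => ?_).trans hF0.le
      rw [norm_smul, Real.norm_eq_abs]
      exact mul_le_mul_of_nonneg_left (le_nk0 (h a) x) (abs_nonneg _)
    have hfd : ∀ x, fderiv ℝ (fun x => ∑ a ∈ F, z a • e a x) x = ∑ a ∈ F, z a • fderiv ℝ (e a) x := by
      intro x
      have h1 : fderiv ℝ (fun x => ∑ a ∈ F, z a • e a x) x =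
          ∑ a ∈ F, fderiv ℝ (fun x => z a • e a x) x :=
        fderiv_fun_sum fun a _ => (cs_diff (cs_smul (h a) (z a))) x
      rw [h1]
      refine Finset.sum_congr rfl fun a _ => ?_
      exact fderiv_const_smul (cs_diff (h a) x) (z a)
    have hpt1 : ∀ x, ‖fderiv ℝ (ser e z) x - fderiv ℝ (fun x => ∑ a ∈ F, z a • e a x) x‖ ≤ δ := by
      intro x
      rw [hfd x, ser_fderiv h hs]
      have h1 : (∑' a, z a • fderiv ℝ (e a) x) - ∑ a ∈ F, z a • fderiv ℝ (e a) x =
          ∑' a : {a // a ∉ F}, z a • fderiv ℝ (e a) x := by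
        rw [sub_eq_iff_eq_add']
        exact ((sum1 h hs x).sum_add_tsum_compl (s := F)).symm
      rw [h1]
      have h2 : Summable fun a : {a // a ∉ F} => |z a| * nk 1 (e a) := (hs 1).subtype _
      refine (tsum_of_norm_bounded h2.hasSum fun a => ?_).trans hF1.le
      rw [norm_smul, Real.norm_eq_abs]
      exact mul_le_mul_of_nonneg_left (le_nk1 (h a) x) (abs_nonneg _)
    refine ⟨fun x => ∑ a ∈ F, z a • e a x, hw, ?_, ?_⟩
    · have h3 := int_small hb (fun x => ‖ser e z x - ∑ a ∈ F, z a • e a x‖ ^ 2) (δ ^ 2)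
        (fun x => sq_nonneg _) (fun x => pow_le_pow_left₀ (norm_nonneg _) (hpt x) 2) (fun x hx => by
          beta_reduce
          rw [ser_zero h hx, Finset.sum_eq_zero fun a _ => by rw [cs_zero (h a) hx, smul_zero]]
          simp)
      rw [← hV] at h3
      linarith
    · have hcv : ∀ (A : E3 →L[ℝ] E3) (i : Fin 3), ‖A (cv i)‖ ≤ ‖A‖ := by
        intro A i
        refine (A.le_opNorm _).trans ?_
        rw [norm_cv, mul_one]
      have h3 := int_small hb (fun x => ∑ i : Fin 3, ‖gr (ser e z) x i -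
          fderiv ℝ (fun x => ∑ a ∈ F, z a • e a x) x (cv i)‖ ^ 2) (3 * δ ^ 2)
        (fun x => Finset.sum_nonneg fun _ _ => sq_nonneg _) (fun x => by
          have h4 : ∀ i : Fin 3, ‖gr (ser e z) x i -
              fderiv ℝ (fun x => ∑ a ∈ F, z a • e a x) x (cv i)‖ ^ 2 ≤ δ ^ 2 := by
            intro i
            refine pow_le_pow_left₀ (norm_nonneg _) ?_ 2
            have h5 := hcv (fderiv ℝ (ser e z) x -
              fderiv ℝ (fun x => ∑ a ∈ F, z a • e a x) x) i
            exact h5.trans (hpt1 x)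
          refine (Finset.sum_le_sum fun i _ => h4 i).trans (le_of_eq ?_)
          simp) (fun x hx => by
          have h4 : ∀ i : Fin 3, ‖gr (ser e z) x i -
              fderiv ℝ (fun x => ∑ a ∈ F, z a • e a x) x (cv i)‖ ^ 2 = 0 := by
            intro i
            have h5 : gr (ser e z) x i = 0 := by
              show fderiv ℝ (ser e z) x (cv i) = 0
              rw [hfz x hx]
              simp
            rw [h5, cs_fzero hw hx]
            simp
          exact Finset.sum_eq_zero fun i _ => h4 i)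
      rw [← hV] at h3
      linarith

theorem t_W1 : S_W1 := by
  intro Ω ν ι e σ s T u _ hb hS t ht
  have hs : ∀ k : ℕ, Summable (fun a => |ipr (u t) (e a)| * nk k (e a)) := by
    intro k
    obtain ⟨b, hb1, hb2⟩ := hS.cfk k t ht.2
    exact Summable.of_nonneg_of_le (fun a => mul_nonneg (abs_nonneg _) (nk_nonneg _ _))
      (fun a => hb2 t ⟨ht.1, le_rfl⟩ a) hb1
  have h1 := ser_H1 (Ω := Ω) (e := e) (z := fun i => ipr (u t) (e i)) hb hS.skew.field hs
  rw [← hS.rep t ht] at h1
  exact h1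

end Pool.Agent.Y810.EJ
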